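import Mathlib
import Pool.Agent.helper349_fc.LucasPair
import Pool.Agent.Y902.FB.ExR

/-!
# The three bases of a solution are never close to terms of Lucas sequences with nearby parameters

Let `V_0 = 2`, `V_1 = P`, `V_{n+2} = P V_{n+1} - Q V_n` be the Lucas sequence `V (P, Q)`, where `Q = 1` or
`Q = -1`. There are absolute constants `C` and `κ` such that for every solution of `a ^ m + b ^ n = c ^ k` in
pairwise coprime positive integers, with exponents `m, n, k ≥ 2` (all free), all parameters `P₁, P₂, P₃`, all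
`Q₁, Q₂, Q₃ = ± 1` and all indices `i, j, l ≥ 1`
`P₁ ≤ C (log max (a, b, c)) ^ κ max (1, |P₁ - P₂|, |P₁ - P₃|, |a - V_i (P₁, Q₁)|, |b - V_j (P₂, Q₂)|,
|c - V_l (P₃, Q₃)|)`.

In particular (all parameters equal) the bases are three terms of one such sequence only if
`P ≤ C (log max (a, b, c)) ^ κ`.

Proof. With `R + σ = P` and `R σ = Q`, `V_n = R ^ n + σ ^ n`. Linear forms in two logarithms bound
the exponents by a power of `log max (a, b, c)` (a theorem of the starting files,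
`Pool.Agent.Y902.FB.exp_bound_real`). The two largest powers are near the same power `R ^ D` of `R`,
and their difference is `μ R ^ t (1 + o(1))` with `3 / 2 ≤ |μ| ≤ R / 40`, while the third power is
`R ^ B (1 + o(1))`. If the parameters of the two bases are different, `μ` is about `D (P₃ - P₁)` or `± 2 D`;
otherwise it comes from the deviations. The one exception is `V_{2 i} = V_i ^ 2 - 2 Q ^ i`, where the two
bases are not coprime.
-/

set_option autoImplicit false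

namespace Pool.Agent.Results.MP_2738db_nt.LucasBases

open Pool.Agent.helper349_fc

/-- **Main result.** Here `V P Q` is the companion Lucas sequence `V_0 = 2`, `V_1 = P`,
`V_{n+2} = P V_{n+1} - Q V_n`. -/
theorem result : ∃ (C : ℝ) (κ : ℕ), 0 < C ∧ ∀ a b c m n k : ℕ, 0 < a → 0 < b → 0 < c →
    Nat.Coprime a b → Nat.Coprime a c → Nat.Coprime b c → 2 ≤ m → 2 ≤ n → 2 ≤ k →
    a ^ m + b ^ n = c ^ k → ∀ (P₁ P₂ P₃ : ℕ) (Q₁ Q₂ Q₃ : ℤ), (Q₁ = 1 ∨ Q₁ = -1) →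
    (Q₂ = 1 ∨ Q₂ = -1) → (Q₃ = 1 ∨ Q₃ = -1) → ∀ i j l : ℕ, 0 < i → 0 < j → 0 < l →
      (P₁ : ℝ) ≤ C * Real.log ((max a (max b c) : ℕ) : ℝ) ^ κ *
        max 1 (max |(P₁ : ℝ) - P₂| (max |(P₁ : ℝ) - P₃| (max |(a : ℝ) - V P₁ Q₁ i|
          (max |(b : ℝ) - V P₂ Q₂ j| |(c : ℝ) - V P₃ Q₃ l|)))) := by
  obtain ⟨C₀, κ, hC₀, hexp⟩ := Pool.Agent.Y902.FB.exp_bound_real
  refine ⟨60000 * (C₀ + 1), κ + 1, by positivity, ?_⟩
  intro x y z p q r hx hy hz hxy hxz hyz hp hq hr heq P₁ P₂ P₃ Q₁ Q₂ Q₃ hQ₁ hQ₂ hQ₃ a b c ha hb hc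
  obtain ⟨e1, e2, e3⟩ := hexp x y z p q r hx hy hz hxy hxz hyz hp hq hr heq
  obtain ⟨H, hH⟩ : ∃ H : ℕ, H = max x (max y z) := ⟨_, rfl⟩
  rw [← hH] at e1 e2 e3 ⊢
  obtain ⟨L, hL⟩ : ∃ L : ℝ, L = Real.log (H : ℝ) := ⟨_, rfl⟩
  rw [← hL] at e1 e2 e3 ⊢
  obtain ⟨W, hW⟩ : ∃ W : ℝ, W = max 1 (max |(P₁ : ℝ) - P₂| (max |(P₁ : ℝ) - P₃|
    (max |(x : ℝ) - V P₁ Q₁ a| (max |(y : ℝ) - V P₂ Q₂ b| |(z : ℝ) - V P₃ Q₃ c|)))) := ⟨_, rfl⟩
  rw [← hW]
  have hW1 : 1 ≤ W := by rw [hW]; exact le_max_left _ _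
  have w1 : |(P₁ : ℝ) - P₂| ≤ W := by
    rw [hW]; exact (le_max_left _ _).trans (le_max_right _ _)
  have w2' : max |(P₁ : ℝ) - P₃|
      (max |(x : ℝ) - V P₁ Q₁ a| (max |(y : ℝ) - V P₂ Q₂ b| |(z : ℝ) - V P₃ Q₃ c|)) ≤ W := by
    rw [hW]; exact (le_max_right _ _).trans (le_max_right _ _)
  have w2 : |(P₁ : ℝ) - P₃| ≤ W := (le_max_left _ _).trans w2'
  have w3' := (le_max_right _ _).trans w2'
  have w3 : |(x : ℝ) - V P₁ Q₁ a| ≤ W := (le_max_left _ _).trans w3'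
  have w4' := (le_max_right _ _).trans w3'
  have w4 : |(y : ℝ) - V P₂ Q₂ b| ≤ W := (le_max_left _ _).trans w4'
  have w5 : |(z : ℝ) - V P₃ Q₃ c| ≤ W := (le_max_right _ _).trans w4'
  have hxH : x ≤ H := by rw [hH]; exact le_max_left _ _
  have hyH : y ≤ H := by rw [hH]; exact (le_max_left _ _).trans (le_max_right _ _)
  have hzH : z ≤ H := by rw [hH]; exact (le_max_right _ _).trans (le_max_right _ _)
  have hxp : 0 < x ^ p := Nat.pow_pos hx
  have hyq : 0 < y ^ q := Nat.pow_pos hy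
  have hz2 : 2 ≤ z := by
    by_contra h
    have h1 : z = 1 := by omega
    rw [h1, one_pow] at heq
    omega
  have hH3 : 3 ≤ H := by
    by_contra h
    have h1 : z = 2 := by omega
    have h2 : x = 1 := by
      have : x ≤ 2 := by omega
      interval_cases x
      · rfl
      · rw [h1] at hxz; norm_num at hxz
    have h3 : y = 1 := by
      have : y ≤ 2 := by omega
      interval_cases y
      · rfl
      · rw [h1] at hyz; norm_num at hyz
    rw [h1, h2, h3, one_pow, one_pow] at heq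
    have : 2 ^ 2 ≤ 2 ^ r := Nat.pow_le_pow_right (by norm_num) hr
    omega
  have hH3' : (3 : ℝ) ≤ H := by exact_mod_cast hH3
  have hL1 : 1 ≤ L := by
    have h1 : Real.exp 1 ≤ (H : ℝ) := by
      have := Real.exp_one_lt_d9
      linarith
    rw [hL, Real.le_log_iff_exp_le (by linarith [Real.exp_pos 1])]
    exact h1
  have hexpL : Real.exp L = H := by rw [hL, Real.exp_log (by linarith)]
  have hxL : (x : ℝ) ≤ Real.exp L := by rw [hexpL]; exact_mod_cast hxH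
  have hyL : (y : ℝ) ≤ Real.exp L := by rw [hexpL]; exact_mod_cast hyH
  have hzL : (z : ℝ) ≤ Real.exp L := by rw [hexpL]; exact_mod_cast hzH
  have hLκ : 1 ≤ L ^ κ := one_le_pow₀ hL1
  by_contra hcon
  push Not at hcon
  obtain ⟨E, hE⟩ : ∃ E : ℝ, E = (C₀ + 1) * L ^ κ := ⟨_, rfl⟩
  have hE1 : 1 ≤ E := by rw [hE]; nlinarith
  have hE2 : C₀ * L ^ κ ≤ E := by rw [hE]; linarith
  have hbig : 60000 * (E * L * W) ≤ (P₁ : ℝ) := by
    have h1 : 60000 * (E * L * W) = 60000 * (C₀ + 1) * L ^ (κ + 1) * W := by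
      rw [hE, pow_succ]; ring
    rw [h1]
    exact hcon.le
  have hEL : 1 ≤ E * L := by nlinarith
  have hELW : W ≤ E * L * W := by nlinarith
  -- a base equal to one is far from `V_e`
  have hone : ∀ (P : ℕ) (Q : ℤ) (u e : ℕ), (Q = 1 ∨ Q = -1) → |(P₁ : ℝ) - P| ≤ W → 0 < e →
      |(u : ℝ) - V P Q e| ≤ W → u ≠ 1 := by
    intro P Q u e hQ hP he h1 h2
    have hP1 := (abs_le.mp hP).2
    obtain ⟨R, σ, r1, r2, r3, r4, r5⟩ := root P Q hQ (by linarith)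
    have s3 := (sigma_pow R σ r1 (by rw [r3]; exact r4) e).2 he
    rw [h2, r5 e] at h1
    have h3 : R ≤ R ^ e := le_self_pow₀ (by linarith) (by omega)
    have h4 := (abs_le.mp s3).1
    have h5 := (abs_le.mp h1).1
    have h6 := (abs_le.mp r2).1
    push_cast at h5
    linarith
  have hx2 : 2 ≤ x := by
    have := hone P₁ Q₁ x a hQ₁ (by rw [sub_self, abs_zero]; linarith) ha w3
    omega
  have hy2 : 2 ≤ y := by
    have := hone P₂ Q₂ y b hQ₂ w1 hb w4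
    omega
  have p1 := (e1 hx2).trans hE2
  have q1 := (e2 hy2).trans hE2
  have r1 := e3.trans hE2
  have n1 : |(P₁ : ℝ) - P₁| ≤ W := by rw [sub_self, abs_zero]; linarith
  have n2 : |(P₂ : ℝ) - P₁| ≤ W := by rw [abs_sub_comm]; exact w1
  have n3 : |(P₃ : ℝ) - P₁| ≤ W := by rw [abs_sub_comm]; exact w2
  rcases le_total (y ^ q) (x ^ p) with hle | hle
  · exact pairV P₁ W E L hW1 hE1 hL1 hbig P₁ P₂ P₃ Q₁ Q₂ Q₃ hQ₁ hQ₂ hQ₃ n1 n2 n3 a b c p q r x y z
      ha hb hc hp hq hr p1 q1 r1 w3 w4 w5 hxL hyL hzL hxz hx2 hz2 hy heq hle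
  · exact pairV P₁ W E L hW1 hE1 hL1 hbig P₂ P₁ P₃ Q₂ Q₁ Q₃ hQ₂ hQ₁ hQ₃ n2 n1 n3 b a c q p r y x z
      hb ha hc hq hp hr q1 p1 r1 w4 w3 w5 hyL hxL hzL hyz hy2 hz2 hx
      (by rw [add_comm]; exact heq) hle

end Pool.Agent.Results.MP_2738db_nt.LucasBases
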