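import Pool.Agent.Helper205_Exc.Two

/-!
# Two bounded bases and a third base of small radical

For all `κ` and `ε > 0` there are `R`, `η > 0` and `C` such that for every `X` at most `C X ^ ε` value
triples `(a ^ m, b ^ n, c ^ k)` come from the solutions of `a ^ m + b ^ n = c ^ k` with terms
`≤ exp (X ^ η)` for which two of the bases are `≤ X` and have exponents `≥ R`, and the third base,
which can be as large as `exp (X ^ η)`, has radical `≤ X ^ κ`. More generally two of the members of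
`x + y = z` can be products of powers of `N` integers `≤ X`, if `z ≥ X ^ M`.

Either the third member has a divisor `r ^ E ≥ X ^ B` with `r ≤ X ^ ε`, and the two other members,
being proportional modulo `r ^ E`, are counted by the determinant method modulo `r ^ E`, uniformly in
the exponents; or it is itself a product of powers of boundedly many integers `≤ X ^ z`, and the
triples of such members are counted by the theorem on three members of this shape.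
-/

set_option autoImplicit false

namespace Pool.Agent.Results.MP_2738db_nt.ThirdBaseSmallRadical

/-- the radical of `n` -/
def rad (n : ℕ) : ℕ := ∏ p ∈ n.primeFactors, p

/-- `m` is a product of powers of `N` positive integers `≤ X` -/
def PowerProduct (N X m : ℕ) : Prop :=
  ∃ x e : Fin N → ℕ, (∀ i, 0 < x i ∧ x i ≤ X) ∧ m = ∏ i, x i ^ e i

/-- the triples `(x, y, z)` of coprime positive integers with `x + y = z` and
`X ^ M ≤ z ≤ exp (X ^ η)`, two members of which are products of powers of `N` integers `≤ X`, while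
the third one has radical `≤ X ^ κ` -/
def Sums (N κ M : ℕ) (η : ℝ) (X : ℕ) : Set (ℕ × ℕ × ℕ) :=
  {v | 0 < v.1 ∧ 0 < v.2.1 ∧ v.1 + v.2.1 = v.2.2 ∧ Nat.Coprime v.1 v.2.1 ∧
    X ^ M ≤ v.2.2 ∧ (v.2.2 : ℝ) ≤ Real.exp ((X : ℝ) ^ η) ∧
    ((PowerProduct N X v.1 ∧ PowerProduct N X v.2.1 ∧ rad v.2.2 ≤ X ^ κ) ∨
      (PowerProduct N X v.1 ∧ PowerProduct N X v.2.2 ∧ rad v.2.1 ≤ X ^ κ) ∨
      (PowerProduct N X v.2.1 ∧ PowerProduct N X v.2.2 ∧ rad v.1 ≤ X ^ κ))}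

/-- `a ^ m + b ^ n = c ^ k` in pairwise coprime positive integers, with positive exponents (the
condition `1/m + 1/n + 1/k < 1` is not imposed) -/
def Solution (a b c m n k : ℕ) : Prop :=
  0 < a ∧ 0 < b ∧ 0 < c ∧ 0 < m ∧ 0 < n ∧ 0 < k ∧ Nat.Coprime a b ∧ Nat.Coprime a c ∧
    Nat.Coprime b c ∧ a ^ m + b ^ n = c ^ k

/-- the value triples of the solutions with terms `≤ exp (X ^ η)`, two bases of which are `≤ X` and
have exponents `≥ R`, while the radical of the third base is `≤ X ^ κ` -/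
def Values (κ R : ℕ) (η : ℝ) (X : ℕ) : Set (ℕ × ℕ × ℕ) :=
  {v | ∃ a b c m n k : ℕ, Solution a b c m n k ∧ v = (a ^ m, b ^ n, c ^ k) ∧
    ((c ^ k : ℕ) : ℝ) ≤ Real.exp ((X : ℝ) ^ η) ∧
    ((a ≤ X ∧ b ≤ X ∧ R ≤ m ∧ R ≤ n ∧ rad c ≤ X ^ κ) ∨
      (a ≤ X ∧ c ≤ X ∧ R ≤ m ∧ R ≤ k ∧ rad b ≤ X ^ κ) ∨
      (b ≤ X ∧ c ≤ X ∧ R ≤ n ∧ R ≤ k ∧ rad a ≤ X ^ κ))}

open Finset Pool.Agent.Helper205_Exc Pool.Agent.Y913.Nb

lemma rad_eq (n : ℕ) : rad n = Pool.Agent.H785R2.ABC.rad n := rfl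

lemma pp_nb {N X m : ℕ} {Y : ℝ} (hXY : (X : ℝ) ≤ Y) (h : PowerProduct N X m) : NB N Y m := by
  obtain ⟨x, e, h1, h2⟩ := h
  exact ⟨x, e, fun i => ⟨(h1 i).1, le_trans (by exact_mod_cast (h1 i).2) hXY⟩, h2⟩

lemma pow_pp {X a m : ℕ} (ha : 0 < a) (haX : a ≤ X) : PowerProduct 1 X (a ^ m) :=
  ⟨fun _ => a, fun _ => m, fun _ => ⟨ha, haX⟩, by simp⟩

lemma rad_pow {c k : ℕ} (hk : 0 < k) : rad (c ^ k) = rad c := by
  unfold rad
  rw [Nat.primeFactors_pow c hk.ne']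

/-- all triples with small members -/
lemma small_card {S : Set (ℕ × ℕ × ℕ)} (h : ∀ v ∈ S, v.1 + v.2.1 = v.2.2 ∧ (v.2.2 : ℝ) ≤ Real.exp 1) :
    S.Finite ∧ (S.ncard : ℝ) ≤ 27 := by
  have hsub : S ⊆ ↑((range 3) ×ˢ ((range 3) ×ˢ (range 3))) := by
    intro v hv
    obtain ⟨h1, h2⟩ := h v hv
    have h3 : (v.2.2 : ℝ) < 3 := lt_of_le_of_lt h2 (by
      have := Real.exp_one_lt_d9
      linarith)
    have h4 : v.2.2 < 3 := by exact_mod_cast h3
    rw [mem_coe, mem_product, mem_product, mem_range, mem_range, mem_range]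
    omega
  refine ⟨(Finset.finite_toSet _).subset hsub, ?_⟩
  have h1 := Set.ncard_le_ncard hsub (Finset.finite_toSet _)
  rw [Set.ncard_coe_finset, card_product, card_product, card_range] at h1
  exact_mod_cast h1

/-- **Part 1.** -/
theorem part1 (N κ : ℕ) (ε : ℝ) (hε : 0 < ε) : ∃ (M : ℕ) (η C : ℝ), 0 < η ∧ 0 < C ∧
    ∀ X : ℕ, 1 ≤ X → (Sums N κ M η X).Finite ∧ ((Sums N κ M η X).ncard : ℝ) ≤ C * (X : ℝ) ^ ε := by
  classical
  obtain ⟨k1, hk1⟩ : ∃ k1 : ℕ, k1 = max κ 1 := ⟨_, rfl⟩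
  have hk0 : 1 ≤ k1 := by rw [hk1]; exact le_max_right _ _
  have hκ1 : κ ≤ k1 := by rw [hk1]; exact le_max_left _ _
  have hk0r : (0 : ℝ) < k1 := by exact_mod_cast hk0
  obtain ⟨M, η, C, hη, hC, hmain⟩ := two_main N (ε / k1) (by positivity)
  refine ⟨k1 * M, η, 3 * C + 27, hη, by positivity, ?_⟩
  intro X hX
  have hXr : (1 : ℝ) ≤ X := by exact_mod_cast hX
  have hXε : (1 : ℝ) ≤ (X : ℝ) ^ ε := Real.one_le_rpow hXr hε.le
  rcases Nat.lt_or_ge X 2 with hX2 | hX2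
  · have hX1 : X = 1 := by omega
    subst hX1
    have h1 := small_card (S := Sums N κ (k1 * M) η 1) (by
      rintro v ⟨-, -, h3, -, -, h6, -⟩
      refine ⟨h3, ?_⟩
      simpa using h6)
    refine ⟨h1.1, h1.2.trans ?_⟩
    calc (27 : ℝ) ≤ 3 * C + 27 := by linarith
      _ ≤ _ := le_mul_of_one_le_right (by positivity) hXε
  -- the new variable
  obtain ⟨Z, hZ⟩ : ∃ Z : ℕ, Z = X ^ k1 := ⟨_, rfl⟩
  have hXZ : X ≤ Z := by rw [hZ]; exact Nat.le_self_pow (by omega) X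
  have hZ2 : 2 ≤ Z := hX2.trans hXZ
  have hZr : (Z : ℝ) ^ (ε / k1) = (X : ℝ) ^ ε := by
    rw [hZ]
    push_cast
    rw [← Real.rpow_natCast, ← Real.rpow_mul (by linarith)]
    congr 1
    field_simp
  obtain ⟨B, hB⟩ : ∃ B : ℕ, B = ⌊Real.exp ((X : ℝ) ^ η)⌋₊ := ⟨_, rfl⟩
  obtain ⟨T, hT⟩ : ∃ T : Fin 3 → Fin 3 → Fin 3 → Finset (ℕ × ℕ), T = fun i j k =>
    ((range (B + 1)) ×ˢ (range (B + 1))).filter fun t => (0 < t.1 ∧ 0 < t.2 ∧ Nat.Coprime t.1 t.2) ∧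
      X ^ (k1 * M) ≤ t.1 + t.2 ∧ ((t.1 + t.2 : ℕ) : ℝ) ≤ Real.exp ((X : ℝ) ^ η) ∧
      PowerProduct N X (mem t j) ∧ PowerProduct N X (mem t k) ∧ rad (mem t i) ≤ X ^ κ := ⟨_, rfl⟩
  have hTc : ∀ i j k : Fin 3, i ≠ j → j ≠ k → i ≠ k → ((T i j k).card : ℝ) ≤ C * (X : ℝ) ^ ε := by
    intro i j k hij hjk hik
    rw [← hZr]
    apply hmain Z hZ2 (T i j k) i j k hij hjk hik
    intro t ht
    rw [hT] at ht
    simp only [mem_filter] at ht
    obtain ⟨-, h1, h2, h3, h4, h5, h6⟩ := ht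
    have hXZr : (X : ℝ) ≤ Z := by exact_mod_cast hXZ
    refine ⟨h1, ?_, pp_nb hXZr h4, pp_nb hXZr h5, ?_, ?_⟩
    · rw [← rad_eq, hZ]
      exact h6.trans (Nat.pow_le_pow_right (by omega) hκ1)
    · exact h3.trans (Real.exp_le_exp.mpr (Real.rpow_le_rpow (by linarith) hXZr hη.le))
    · rw [hZ, ← pow_mul]
      exact h2
  have hsub : Sums N κ (k1 * M) η X ⊆ ↑(((T 2 0 1).image fun t : ℕ × ℕ => (t.1, t.2, t.1 + t.2)) ∪
      (((T 1 0 2).image fun t : ℕ × ℕ => (t.1, t.2, t.1 + t.2)) ∪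
        ((T 0 1 2).image fun t : ℕ × ℕ => (t.1, t.2, t.1 + t.2)))) := by
    rintro ⟨x, y, z⟩ ⟨h1, h2, h3, h4, h5, h6, h7⟩
    simp only at h1 h2 h3 h4 h5 h6 h7
    subst h3
    have hBle : x + y ≤ B := by rw [hB]; exact Nat.le_floor h6
    have hmemT : ∀ i j k : Fin 3, PowerProduct N X (mem (x, y) j) →
        PowerProduct N X (mem (x, y) k) → rad (mem (x, y) i) ≤ X ^ κ → (x, y) ∈ T i j k := by
      intro i j k g1 g2 g3
      rw [hT]
      simp only [mem_filter, mem_product, mem_range]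
      exact ⟨⟨by omega, by omega⟩, ⟨h1, h2, h4⟩, h5, h6, g1, g2, g3⟩
    rw [mem_coe, mem_union, mem_union, mem_image, mem_image, mem_image]
    rcases h7 with ⟨g1, g2, g3⟩ | ⟨g1, g2, g3⟩ | ⟨g1, g2, g3⟩
    · exact Or.inl ⟨(x, y), hmemT 2 0 1 g1 g2 g3, rfl⟩
    · exact Or.inr (Or.inl ⟨(x, y), hmemT 1 0 2 g1 g2 g3, rfl⟩)
    · exact Or.inr (Or.inr ⟨(x, y), hmemT 0 1 2 g1 g2 g3, rfl⟩)
  refine ⟨(Finset.finite_toSet _).subset hsub, ?_⟩
  have h1 := Set.ncard_le_ncard hsub (Finset.finite_toSet _)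
  rw [Set.ncard_coe_finset] at h1
  have h2 : (((Sums N κ (k1 * M) η X).ncard : ℕ) : ℝ) ≤
      ((T 2 0 1).card : ℝ) + (((T 1 0 2).card : ℝ) + ((T 0 1 2).card : ℝ)) := by
    have h3 := h1.trans ((card_union_le _ _).trans (Nat.add_le_add card_image_le
      ((card_union_le _ _).trans (Nat.add_le_add card_image_le card_image_le))))
    exact_mod_cast h3
  have e1 := hTc 2 0 1 (by decide) (by decide) (by decide)
  have e2 := hTc 1 0 2 (by decide) (by decide) (by decide)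
  have e3 := hTc 0 1 2 (by decide) (by decide) (by decide)
  have : 0 ≤ (X : ℝ) ^ ε := by positivity
  nlinarith

/-- the values of the powers with large exponents below `X ^ M` -/
lemma powers_below (M : ℕ) (ε : ℝ) (hε : 0 < ε) : ∃ (R : ℕ) (C : ℝ), 1 ≤ R ∧ 0 < C ∧
    ∀ X : ℕ, 2 ≤ X → ∃ P : Finset ℕ, (P.card : ℝ) ≤ C * (X : ℝ) ^ ε ∧
      ∀ a m : ℕ, 0 < a → R ≤ m → a ^ m < X ^ M → a ^ m ∈ P := by
  classical
  obtain ⟨D, hD, hlog⟩ := log_pow_le 1 (ε / 2) (by positivity)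
  obtain ⟨R, hR⟩ : ∃ R : ℕ, R = ⌈2 * (M : ℝ) / ε⌉₊ + 1 := ⟨_, rfl⟩
  have hR1 : 1 ≤ R := by omega
  have hR0 : (0 : ℝ) < R := by exact_mod_cast hR1
  have hRM : (M : ℝ) ≤ ε / 2 * R := by
    have h1 : 2 * (M : ℝ) / ε ≤ R := by
      rw [hR]
      push_cast
      have := Nat.le_ceil (2 * (M : ℝ) / ε)
      linarith
    rw [div_le_iff₀ hε] at h1
    linarith
  refine ⟨R, (M + 1) * D, hR1, by positivity, ?_⟩
  intro X hX
  have hX0 : (0 : ℝ) < X := by exact_mod_cast (by omega : 0 < X)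
  have hX1 : (1 : ℝ) ≤ X := by exact_mod_cast (by omega : 1 ≤ X)
  obtain ⟨W, hW⟩ : ∃ W : ℝ, W = (X : ℝ) ^ (ε / 2) := ⟨_, rfl⟩
  have hW1 : 1 ≤ W := by rw [hW]; exact Real.one_le_rpow hX1 (by positivity)
  obtain ⟨L, hL⟩ : ∃ L : ℕ, L = Nat.log 2 X + 1 := ⟨_, rfl⟩
  refine ⟨((Icc 1 ⌊W⌋₊) ×ˢ (range (L * M + 1))).image fun q => q.1 ^ q.2, ?_, ?_⟩
  · have h1 : ((((Icc 1 ⌊W⌋₊) ×ˢ (range (L * M + 1))).image fun q : ℕ × ℕ => q.1 ^ q.2).card : ℝ) ≤
        (⌊W⌋₊ : ℝ) * (L * M + 1) := by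
      have h2 := card_image_le (s := (Icc 1 ⌊W⌋₊) ×ˢ (range (L * M + 1)))
        (f := fun q : ℕ × ℕ => q.1 ^ q.2)
      rw [card_product, Nat.card_Icc, card_range, Nat.add_sub_cancel] at h2
      exact_mod_cast h2
    have h2 : (L : ℝ) ≤ D * (X : ℝ) ^ (ε / 2) := by
      have := hlog X (by omega)
      rw [pow_one, ← hL] at this
      exact this
    have h3 : (1 : ℝ) ≤ L := by
      rw [hL]
      push_cast
      have : (0 : ℝ) ≤ (Nat.log 2 X : ℝ) := Nat.cast_nonneg _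
      linarith
    have h4 : (⌊W⌋₊ : ℝ) ≤ W := Nat.floor_le (by linarith)
    calc _ ≤ (⌊W⌋₊ : ℝ) * (L * M + 1) := h1
      _ ≤ W * (L * M + L) := by
          apply mul_le_mul h4 (by linarith) (by positivity) (by linarith)
      _ = (M + 1) * (W * L) := by ring
      _ ≤ (M + 1) * (W * (D * (X : ℝ) ^ (ε / 2))) := by
          apply mul_le_mul_of_nonneg_left _ (by positivity)
          exact mul_le_mul_of_nonneg_left h2 (by linarith)
      _ = (M + 1) * D * ((X : ℝ) ^ (ε / 2) * (X : ℝ) ^ (ε / 2)) := by rw [hW]; ring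
      _ = (M + 1) * D * (X : ℝ) ^ ε := by
          rw [← Real.rpow_add hX0]
          congr 2
          ring
  · intro a m ha hm hlt
    rw [mem_image]
    rcases Nat.lt_or_ge a 2 with ha2 | ha2
    · have : a = 1 := by omega
      subst this
      refine ⟨(1, 0), ?_, by simp⟩
      rw [mem_product, mem_Icc, mem_range]
      exact ⟨⟨le_refl _, Nat.le_floor (by push_cast; exact hW1)⟩, by omega⟩
    · refine ⟨(a, m), ?_, rfl⟩
      rw [mem_product, mem_Icc, mem_range]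
      refine ⟨⟨ha, Nat.le_floor ?_⟩, ?_⟩
      · have h1 : (a : ℝ) ^ R ≤ W ^ R := by
          calc (a : ℝ) ^ R ≤ (a : ℝ) ^ m :=
                pow_le_pow_right₀ (by exact_mod_cast (by omega : 1 ≤ a)) hm
            _ ≤ (X : ℝ) ^ M := by exact_mod_cast hlt.le
            _ = (X : ℝ) ^ (M : ℝ) := (Real.rpow_natCast _ _).symm
            _ ≤ (X : ℝ) ^ (ε / 2 * R) := Real.rpow_le_rpow_of_exponent_le hX1 hRM
            _ = W ^ R := by rw [hW, Real.rpow_mul hX0.le, Real.rpow_natCast]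
        exact (pow_le_pow_iff_left₀ (Nat.cast_nonneg _) (by linarith) (by omega)).mp h1
      · have h1 : 2 ^ m < 2 ^ (L * M) := by
          calc 2 ^ m ≤ a ^ m := Nat.pow_le_pow_left ha2 m
            _ < X ^ M := hlt
            _ ≤ (2 ^ L) ^ M := Nat.pow_le_pow_left
                (by rw [hL]; exact (Nat.lt_pow_succ_log_self (by norm_num) _).le) M
            _ = 2 ^ (L * M) := by rw [pow_mul]
        have := (Nat.pow_lt_pow_iff_right (by norm_num : 1 < 2)).mp h1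
        omega

/-- **Part 2.** -/
theorem part2 (κ : ℕ) (ε : ℝ) (hε : 0 < ε) : ∃ (R : ℕ) (η C : ℝ), 0 < η ∧ 0 < C ∧
    ∀ X : ℕ, 1 ≤ X → (Values κ R η X).Finite ∧
      ((Values κ R η X).ncard : ℝ) ≤ C * (X : ℝ) ^ ε := by
  classical
  obtain ⟨M, η, C, hη, hC, h1⟩ := part1 1 κ ε hε
  obtain ⟨R, C', hR, hC', h2⟩ := powers_below M (ε / 2) (by positivity)
  refine ⟨R, η, C + 3 * C' ^ 2 + 27, hη, by positivity, ?_⟩
  intro X hX
  have hXr : (1 : ℝ) ≤ X := by exact_mod_cast hX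
  have hX0 : (0 : ℝ) < X := by linarith
  have hXε : (1 : ℝ) ≤ (X : ℝ) ^ ε := Real.one_le_rpow hXr hε.le
  rcases Nat.lt_or_ge X 2 with hX2 | hX2
  · have hX1 : X = 1 := by omega
    subst hX1
    have h3 := small_card (S := Values κ R η 1) (by
      rintro v ⟨a, b, c, m, n, k, hs, rfl, h6, -⟩
      refine ⟨hs.2.2.2.2.2.2.2.2.2, ?_⟩
      simpa using h6)
    refine ⟨h3.1, h3.2.trans ?_⟩
    calc (27 : ℝ) ≤ C + 3 * C' ^ 2 + 27 := by nlinarith [sq_nonneg C']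
      _ ≤ _ := le_mul_of_one_le_right (by positivity) hXε
  obtain ⟨hfin, hcard⟩ := h1 X hX
  obtain ⟨P, hP, hPmem⟩ := h2 X hX2
  have hsub : Values κ R η X ⊆ Sums 1 κ M η X ∪
      ↑(((P ×ˢ P).image fun t : ℕ × ℕ => (t.1, t.2, t.1 + t.2)) ∪
        (((P ×ˢ P).image fun t : ℕ × ℕ => (t.1, t.2 - t.1, t.2)) ∪
          ((P ×ˢ P).image fun t : ℕ × ℕ => (t.2 - t.1, t.1, t.2)))) := by
    rintro v ⟨a, b, c, m, n, k, ⟨ha, hb, hc, hm, hn, hk, hab, hac, hbc, heq⟩, rfl, hexp, hcase⟩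
    rcases Nat.lt_or_ge (c ^ k) (X ^ M) with hlt | hge
    · right
      have hx : a ^ m < X ^ M := by omega
      have hy : b ^ n < X ^ M := by omega
      rw [mem_coe, mem_union, mem_union, mem_image, mem_image, mem_image]
      rcases hcase with ⟨-, -, g3, g4, -⟩ | ⟨-, -, g3, g4, -⟩ | ⟨-, -, g3, g4, -⟩
      · left
        refine ⟨(a ^ m, b ^ n), ?_, ?_⟩
        · rw [mem_product]
          exact ⟨hPmem a m ha g3 hx, hPmem b n hb g4 hy⟩
        · simp only [heq]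
      · right
        left
        refine ⟨(a ^ m, c ^ k), ?_, ?_⟩
        · rw [mem_product]
          exact ⟨hPmem a m ha g3 hx, hPmem c k hc g4 hlt⟩
        · have : c ^ k - a ^ m = b ^ n := by omega
          simp only [this]
      · right
        right
        refine ⟨(b ^ n, c ^ k), ?_, ?_⟩
        · rw [mem_product]
          exact ⟨hPmem b n hb g3 hy, hPmem c k hc g4 hlt⟩
        · have : c ^ k - b ^ n = a ^ m := by omega
          simp only [this]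
    · left
      refine ⟨pow_pos ha _, pow_pos hb _, heq, Nat.Coprime.pow _ _ hab, hge, hexp, ?_⟩
      simp only
      rcases hcase with ⟨g1, g2, -, -, g5⟩ | ⟨g1, g2, -, -, g5⟩ | ⟨g1, g2, -, -, g5⟩
      · exact Or.inl ⟨pow_pp ha g1, pow_pp hb g2, by rw [rad_pow hk]; exact g5⟩
      · exact Or.inr (Or.inl ⟨pow_pp ha g1, pow_pp hc g2, by rw [rad_pow hn]; exact g5⟩)
      · exact Or.inr (Or.inr ⟨pow_pp hb g1, pow_pp hc g2, by rw [rad_pow hm]; exact g5⟩)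
  have hfin2 := hfin.union (Finset.finite_toSet
      (((P ×ˢ P).image fun t : ℕ × ℕ => (t.1, t.2, t.1 + t.2)) ∪
        (((P ×ˢ P).image fun t : ℕ × ℕ => (t.1, t.2 - t.1, t.2)) ∪
          ((P ×ˢ P).image fun t : ℕ × ℕ => (t.2 - t.1, t.1, t.2)))))
  refine ⟨hfin2.subset hsub, ?_⟩
  have h3 := (Set.ncard_le_ncard hsub hfin2).trans (Set.ncard_union_le _ _)
  rw [Set.ncard_coe_finset] at h3
  have h4 : (((Values κ R η X).ncard : ℕ) : ℝ) ≤ ((Sums 1 κ M η X).ncard : ℝ) +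
      ((P.card : ℝ) * P.card + ((P.card : ℝ) * P.card + (P.card : ℝ) * P.card)) := by
    have h5 : (P ×ˢ P).card = P.card * P.card := card_product _ _
    have h6 := h3.trans (Nat.add_le_add_left ((card_union_le _ _).trans (Nat.add_le_add card_image_le
      ((card_union_le _ _).trans (Nat.add_le_add card_image_le card_image_le)))) _)
    rw [h5] at h6
    exact_mod_cast h6
  have h5 : (P.card : ℝ) * P.card ≤ C' ^ 2 * (X : ℝ) ^ ε := by
    calc (P.card : ℝ) * P.card ≤ (C' * (X : ℝ) ^ (ε / 2)) * (C' * (X : ℝ) ^ (ε / 2)) :=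
          mul_le_mul hP hP (Nat.cast_nonneg _) (by positivity)
      _ = C' ^ 2 * ((X : ℝ) ^ (ε / 2) * (X : ℝ) ^ (ε / 2)) := by ring
      _ = _ := by
          rw [← Real.rpow_add hX0]
          congr 2
          ring
  have : 0 ≤ (X : ℝ) ^ ε := by positivity
  nlinarith

theorem result :
    (∀ (κ : ℕ) (ε : ℝ), 0 < ε → ∃ (R : ℕ) (η C : ℝ), 0 < η ∧ 0 < C ∧ ∀ X : ℕ, 1 ≤ X →
      (Values κ R η X).Finite ∧ ((Values κ R η X).ncard : ℝ) ≤ C * (X : ℝ) ^ ε) ∧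
    ∀ (N κ : ℕ) (ε : ℝ), 0 < ε → ∃ (M : ℕ) (η C : ℝ), 0 < η ∧ 0 < C ∧ ∀ X : ℕ, 1 ≤ X →
      (Sums N κ M η X).Finite ∧ ((Sums N κ M η X).ncard : ℝ) ≤ C * (X : ℝ) ^ ε :=
  ⟨part2, part1⟩

end Pool.Agent.Results.MP_2738db_nt.ThirdBaseSmallRadical
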